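import Mathlib

set_option autoImplicit false

namespace Pool.Agent.P.MP_9cf723_co

open Module

variable {M N : Type*} [AddCommGroup M] [Module ℝ M] [AddCommGroup N] [Module ℝ N]

theorem finrank_map_add (f : M →ₗ[ℝ] N) (Y : Submodule ℝ M) [FiniteDimensional ℝ Y] :
    finrank ℝ (Y.map f) + finrank ℝ ↥(Y ⊓ LinearMap.ker f) = finrank ℝ Y := by
  have h := (f.domRestrict Y).finrank_range_add_finrank_ker
  rw [LinearMap.range_domRestrict, LinearMap.ker_domRestrict] at h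
  rw [← h]
  congr 1
  have e : Submodule.comap Y.subtype (LinearMap.ker f)
      = Submodule.comap Y.subtype (Y ⊓ LinearMap.ker f) := by
    ext x; simp
  rw [e]
  exact (Submodule.comapSubtypeEquivOfLe inf_le_left).finrank_eq.symm

theorem finrank_map_of_inf (f : M →ₗ[ℝ] N) (Y : Submodule ℝ M) [FiniteDimensional ℝ Y]
    (h : ∀ y ∈ Y, f y = 0 → y = 0) : finrank ℝ (Y.map f) = finrank ℝ Y := by
  have e : Y ⊓ LinearMap.ker f = ⊥ := by
    rw [eq_bot_iff]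
    rintro y ⟨h1, h2⟩
    exact h y h1 h2
  have := finrank_map_add f Y
  rw [e, finrank_bot, add_zero] at this
  exact this

theorem finrank_quot (Z B : Submodule ℝ M) [FiniteDimensional ℝ Z] (h : B ≤ Z) :
    finrank ℝ (Z ⧸ B.comap Z.subtype) + finrank ℝ B = finrank ℝ Z := by
  rw [← (Submodule.comapSubtypeEquivOfLe h).finrank_eq]
  exact Submodule.finrank_quotient_add_finrank _

/-- differential of the mapping cone -/
def coneD (d : M →ₗ[ℝ] M) : M × M →ₗ[ℝ] M × M :=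
  LinearMap.prod (d ∘ₗ LinearMap.fst ℝ M M + LinearMap.snd ℝ M M) (-(d ∘ₗ LinearMap.snd ℝ M M))

theorem coneD_apply (d : M →ₗ[ℝ] M) (x : M × M) : coneD d x = (d x.1 + x.2, -d x.2) := rfl

instance prod_fd (A B : Submodule ℝ M) [FiniteDimensional ℝ A] [FiniteDimensional ℝ B] :
    FiniteDimensional ℝ (A.prod B) := by
  have h1 : A.FG := Module.Finite.iff_fg.1 inferInstance
  have h2 : B.FG := Module.Finite.iff_fg.1 inferInstance
  exact Module.Finite.iff_fg.2 (h1.prod h2)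

theorem cycles_dim {d D : M →ₗ[ℝ] M} (hdd : ∀ x, d (d x) = 0) (hD : ∀ x, D (d x) = d (D x))
    {A A0 B0 : Submodule ℝ M} [FiniteDimensional ℝ A] [FiniteDimensional ℝ B0]
    (hA : ∀ a ∈ A, d a ∈ A0) (hB0 : B0 = A0 ⊓ LinearMap.ker D) :
    finrank ℝ ↥(A.prod B0 ⊓ LinearMap.ker (coneD d))
      = finrank ℝ ↥(A.map D ⊓ LinearMap.ker d) + finrank ℝ ↥(A ⊓ LinearMap.ker D) := by
  set Y : Submodule ℝ M := A ⊓ LinearMap.ker (D ∘ₗ d) with hY
  have : FiniteDimensional ℝ Y := Submodule.finiteDimensional_of_le inf_le_left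
  have : FiniteDimensional ℝ ↥(A.prod B0 ⊓ LinearMap.ker (coneD d)) :=
    Submodule.finiteDimensional_of_le inf_le_left
  have e1 : (A.prod B0 ⊓ LinearMap.ker (coneD d)).map (LinearMap.fst ℝ M M) = Y := by
    apply le_antisymm
    · rintro _ ⟨⟨a, b⟩, ⟨⟨ha, hb⟩, hk⟩, rfl⟩
      have hk' : (d a + b, -d b) = 0 := hk
      have h1 : d a = -b := eq_neg_of_add_eq_zero_left (Prod.mk_eq_zero.1 hk').1
      rw [hB0] at hb
      have h2 : D b = 0 := hb.2
      refine ⟨ha, ?_⟩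
      show D (d a) = 0
      rw [h1, map_neg, h2, neg_zero]
    · rintro a ⟨ha, hk⟩
      have hk' : D (d a) = 0 := hk
      refine ⟨(a, -d a), ⟨⟨ha, ?_⟩, ?_⟩, rfl⟩
      · rw [hB0]
        exact Submodule.neg_mem _ ⟨hA a ha, hk'⟩
      · show coneD d (a, -d a) = 0
        simp [coneD_apply, hdd]
  have e2 : Y.map D = A.map D ⊓ LinearMap.ker d := by
    apply le_antisymm
    · rintro _ ⟨a, ⟨ha, hk⟩, rfl⟩
      have hk' : D (d a) = 0 := hk
      exact ⟨⟨a, ha, rfl⟩, by show d (D a) = 0; rw [← hD, hk']⟩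
    · rintro _ ⟨⟨a, ha, rfl⟩, hk⟩
      have hk' : d (D a) = 0 := hk
      exact ⟨a, ⟨ha, by show D (d a) = 0; rw [hD, hk']⟩, rfl⟩
  have e3 : Y ⊓ LinearMap.ker D = A ⊓ LinearMap.ker D := by
    apply le_antisymm (inf_le_inf_right _ inf_le_left)
    rintro a ⟨ha, hk⟩
    have hk' : D a = 0 := hk
    exact ⟨⟨ha, by show D (d a) = 0; rw [hD, hk', map_zero]⟩, hk⟩
  rw [← finrank_map_of_inf (LinearMap.fst ℝ M M), e1, ← finrank_map_add D Y, e2, e3]
  rintro ⟨a, b⟩ ⟨-, hk⟩ h0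
  have hk' : (d a + b, -d b) = 0 := hk
  have h1 : a = 0 := h0
  have h2 := (Prod.mk_eq_zero.1 hk').1
  rw [h1, map_zero, zero_add] at h2
  rw [h1, h2]; rfl

theorem bounds_dim {d D : M →ₗ[ℝ] M} (hdd : ∀ x, d (d x) = 0) (hD : ∀ x, D (d x) = d (D x))
    {A1 A B : Submodule ℝ M} [FiniteDimensional ℝ A1] [FiniteDimensional ℝ B]
    (hA : ∀ a ∈ A1, d a ∈ A) (hB : B = A ⊓ LinearMap.ker D) :
    finrank ℝ ((A1.prod B).map (coneD d)) = finrank ℝ ((A1.map D).map d) + finrank ℝ B := by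
  set Y : Submodule ℝ M := A1.map d ⊔ B with hY
  have e1 : ((A1.prod B).map (coneD d)).map (LinearMap.fst ℝ M M) = Y := by
    apply le_antisymm
    · rintro _ ⟨_, ⟨⟨a, b⟩, ⟨ha, hb⟩, rfl⟩, rfl⟩
      exact Submodule.add_mem_sup ⟨a, ha, rfl⟩ hb
    · intro y hy
      obtain ⟨_, ⟨a, ha, rfl⟩, b, hb, rfl⟩ := Submodule.mem_sup.1 hy
      exact ⟨_, ⟨(a, b), ⟨ha, hb⟩, rfl⟩, rfl⟩
  have hBD : ∀ b ∈ B, D b = 0 := fun b hb => by rw [hB] at hb; exact hb.2
  have e2 : Y.map D = (A1.map D).map d := by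
    apply le_antisymm
    · rintro _ ⟨y, hy, rfl⟩
      obtain ⟨_, ⟨a, ha, rfl⟩, b, hb, rfl⟩ := Submodule.mem_sup.1 hy
      exact ⟨_, ⟨a, ha, rfl⟩, by rw [map_add, hBD b hb, add_zero, hD]⟩
    · rintro _ ⟨_, ⟨a, ha, rfl⟩, rfl⟩
      exact ⟨d a, Submodule.mem_sup_left ⟨a, ha, rfl⟩, hD a⟩
  have e3 : Y ⊓ LinearMap.ker D = B := by
    apply le_antisymm
    · rw [hB]
      refine inf_le_inf_right _ (sup_le ?_ (hB ▸ inf_le_left))
      rintro _ ⟨a, ha, rfl⟩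
      exact hA a ha
    · exact le_inf le_sup_right hBD
  rw [← finrank_map_of_inf (LinearMap.fst ℝ M M), e1, ← finrank_map_add D Y, e2, e3]
  rintro _ ⟨⟨a, b⟩, -, rfl⟩ h0
  have h1 : d a + b = 0 := h0
  have h2 : d b = 0 := by
    have := congrArg d h1
    rwa [map_add, hdd, zero_add, map_zero] at this
  rw [coneD_apply, h1, h2, neg_zero]; rfl

end Pool.Agent.P.MP_9cf723_co
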