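import Pool.Agent.P.MP_9cf723_co.Cof
import Pool.Agent.P.MP_9cf723_co.ConeAlg

set_option autoImplicit false
set_option linter.unusedSectionVars false

namespace Pool.Agent.P.MP_9cf723_co

open MvPolynomial Module

variable {W : Type} [Fintype W] [LinearOrder W]

abbrev Ch (W : Type) := Finset W → MvPolynomial (Fin 3) ℝ

theorem bd_apply (ε : Finset W → ℤˣ) (c : Ch W) (θ : Finset W) :
    bd ε c θ = ∑ v : W, (inc ε θ v : ℝ) • c (insert v θ) := by
  simp [bd]

theorem inc_of_mem (ε : Finset W → ℤˣ) {θ : Finset W} {v : W} (h : v ∈ θ) : inc ε θ v = 0 := by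
  simp [inc, h]

theorem inc_sq (ε : Finset W → ℤˣ) {θ : Finset W} {v : W} (h : v ∉ θ) :
    inc ε θ v * inc ε θ v = 1 := by
  have h1 : ∀ u : ℤˣ, (u : ℤ) * u = 1 := fun u => by rw [← Units.val_mul, Int.units_mul_self]; rfl
  simp only [inc, h, if_false]
  have h2 : ((-1 : ℤ) ^ (θ.filter (· < v)).card) * (-1) ^ (θ.filter (· < v)).card = 1 := by
    rw [← mul_pow]; simp
  linear_combination ((ε (insert v θ) : ℤ) * ε (insert v θ) *
    ((-1 : ℤ) ^ (θ.filter (· < v)).card * (-1) ^ (θ.filter (· < v)).card)) * h1 (ε θ) +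
    ((-1 : ℤ) ^ (θ.filter (· < v)).card * (-1) ^ (θ.filter (· < v)).card) * h1 (ε (insert v θ)) + h2

theorem inc_anti_lt (ε : Finset W → ℤˣ) {θ : Finset W} {u v : W} (hu : u ∉ θ) (hv : v ∉ θ)
    (h : u < v) :
    inc ε θ v * inc ε (insert v θ) u = -(inc ε θ u * inc ε (insert u θ) v) := by
  have h1 : ∀ u : ℤˣ, (u : ℤ) * u = 1 := fun u => by rw [← Units.val_mul, Int.units_mul_self]; rfl
  have hu' : u ∉ insert v θ := by simp [hu, h.ne]
  have hv' : v ∉ insert u θ := by simp [hv, h.ne']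
  have e1 : (insert v θ).filter (· < u) = θ.filter (· < u) := by
    rw [Finset.filter_insert, if_neg (not_lt.2 h.le)]
  have e2 : ((insert u θ).filter (· < v)).card = (θ.filter (· < v)).card + 1 := by
    rw [Finset.filter_insert, if_pos h, Finset.card_insert_of_notMem (by simp [hu])]
  simp only [inc, hu, hv, hu', hv', if_false, e1, e2, Finset.insert_comm u v θ, pow_succ]
  linear_combination ((ε θ : ℤ) * ε (insert v (insert u θ)) *
    ((-1 : ℤ) ^ (θ.filter (· < v)).card * (-1) ^ (θ.filter (· < u)).card)) *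
      (h1 (ε (insert v θ)) - h1 (ε (insert u θ)))

theorem inc_anti (ε : Finset W → ℤˣ) (θ : Finset W) (u v : W) :
    inc ε θ v * inc ε (insert v θ) u = -(inc ε θ u * inc ε (insert u θ) v) := by
  by_cases hv : v ∈ θ
  · rw [inc_of_mem ε hv, inc_of_mem ε (Finset.mem_insert_of_mem hv)]; simp
  by_cases hu : u ∈ θ
  · rw [inc_of_mem ε hu, inc_of_mem ε (Finset.mem_insert_of_mem hu)]; simp
  rcases lt_trichotomy u v with h | rfl | h
  · exact inc_anti_lt ε hu hv h
  · rw [inc_of_mem ε (Finset.mem_insert_self u θ)]; simp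
  · rw [inc_anti_lt ε hv hu h, neg_neg]

theorem inc_anti' (ε : Finset W → ℤˣ) (θ : Finset W) (u v : W) :
    (inc ε θ v : ℝ) * inc ε (insert v θ) u = -((inc ε θ u : ℝ) * inc ε (insert u θ) v) := by
  exact_mod_cast inc_anti ε θ u v

theorem bd_bd (ε : Finset W → ℤˣ) (c : Ch W) : bd ε (bd ε c) = 0 := by
  funext θ
  have e : bd ε (bd ε c) θ = ∑ v : W, ∑ u : W,
      ((inc ε θ v : ℝ) * inc ε (insert v θ) u) • c (insert u (insert v θ)) := by
    simp only [bd_apply, Finset.smul_sum, smul_smul]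
  have e2 : bd ε (bd ε c) θ = -bd ε (bd ε c) θ := by
    rw [e]
    nth_rewrite 1 [Finset.sum_comm]
    rw [← Finset.sum_neg_distrib]
    refine Finset.sum_congr rfl (fun u _ => ?_)
    rw [← Finset.sum_neg_distrib]
    refine Finset.sum_congr rfl (fun v _ => ?_)
    rw [inc_anti', Finset.insert_comm, neg_smul]
  have e3 : (2 : ℝ) • bd ε (bd ε c) θ = 0 := by
    rw [two_smul]; nth_rewrite 1 [e2]; simp
  exact (smul_eq_zero_iff_right two_ne_zero).1 e3

theorem mem_gch {K : Finset (Finset W)} {I : Finset W → Submodule ℝ (MvPolynomial (Fin 3) ℝ)}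
    {k : ℕ} {c : Ch W} : c ∈ chains K I k ↔
      (∀ ψ ∈ K, ψ.card = k → c ψ ∈ I ψ) ∧ ∀ ψ, ¬ (ψ ∈ K ∧ ψ.card = k) → c ψ = 0 := by
  simp only [chains, Submodule.mem_pi, Set.mem_univ, true_imp_iff]
  constructor
  · intro h
    refine ⟨fun ψ h1 h2 => ?_, fun ψ h1 => ?_⟩
    · have := h ψ
      rwa [if_pos ⟨h1, h2⟩] at this
    · have := h ψ
      rwa [if_neg h1, Submodule.mem_bot] at this
  · rintro ⟨h1, h2⟩ ψ
    split_ifs with h
    · exact h1 ψ h.1 h.2
    · exact (Submodule.mem_bot ℝ).2 (h2 ψ h)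

instance gch_fd (K : Finset (Finset W)) (I : Finset W → Submodule ℝ (MvPolynomial (Fin 3) ℝ))
    [∀ ψ, FiniteDimensional ℝ (I ψ)] (k : ℕ) : FiniteDimensional ℝ (chains K I k) := by
  refine Module.Finite.iff_fg.2 (Submodule.fg_pi (fun ψ => ?_))
  split_ifs
  · exact Module.Finite.iff_fg.1 inferInstance
  · exact Submodule.fg_bot

def Down (K : Finset (Finset W)) : Prop := ∀ σ ∈ K, ∀ θ ⊆ σ, θ ∈ K

theorem bd_mem (ε : Finset W → ℤˣ) {K : Finset (Finset W)} (hK : Down K) (p : W → Fin 3 → ℝ)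
    (s k : ℕ) : ∀ c ∈ chains K (cof p s) (k + 1), bd ε c ∈ chains K (cof p s) k := by
  intro c hc
  rw [mem_gch] at hc ⊢
  refine ⟨fun θ _ _ => ?_, fun θ hθ => ?_⟩
  · rw [bd_apply]
    refine Submodule.sum_mem _ (fun v _ => Submodule.smul_mem _ _ ?_)
    by_cases h : insert v θ ∈ K ∧ (insert v θ).card = k + 1
    · exact cof_anti p s (Finset.subset_insert v θ) (hc.1 _ h.1 h.2)
    · rw [hc.2 _ h]; exact Submodule.zero_mem _
  · rw [bd_apply]
    refine Finset.sum_eq_zero (fun v _ => ?_)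
    by_cases hv : v ∈ θ
    · simp [inc_of_mem ε hv]
    · rw [hc.2, smul_zero]
      rintro ⟨h1, h2⟩
      rw [Finset.card_insert_of_notMem hv] at h2
      exact hθ ⟨hK _ h1 _ (Finset.subset_insert v θ), by omega⟩

theorem bd_zero (ε : Finset W → ℤˣ) (K : Finset (Finset W)) (p : W → Fin 3 → ℝ) (s : ℕ) :
    ∀ c ∈ chains K (cof p s) 0, bd ε c ∈ (⊥ : Submodule ℝ (Ch W)) := by
  intro c hc
  rw [mem_gch] at hc
  rw [Submodule.mem_bot]
  funext θ
  rw [bd_apply]
  refine Finset.sum_eq_zero (fun v _ => ?_)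
  rw [hc.2, smul_zero]
  rintro ⟨-, h2⟩
  exact absurd h2 (Finset.insert_nonempty v θ).card_pos.ne'

theorem betti_add (ε : Finset W → ℤˣ) {K : Finset (Finset W)} (hK : Down K) (p : W → Fin 3 → ℝ)
    (s k : ℕ) : betti ε K (cof p s) k + finrank ℝ ((chains K (cof p s) (k + 1)).map (bd ε))
      = finrank ℝ ↥(chains K (cof p s) k ⊓ LinearMap.ker (bd ε)) := by
  have : FiniteDimensional ℝ ↥(chains K (cof p s) k ⊓ LinearMap.ker (bd ε)) :=
    Submodule.finiteDimensional_of_le inf_le_left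
  refine finrank_quot _ _ ?_
  rintro _ ⟨c, hc, rfl⟩
  exact ⟨bd_mem ε hK p s k c hc, bd_bd ε c⟩

/-- transport of cycles and boundaries along an injective chain map -/
theorem transport {M N : Type*} [AddCommGroup M] [Module ℝ M] [AddCommGroup N] [Module ℝ N]
    {Φ : M →ₗ[ℝ] N} (hΦ : ∀ x, Φ x = 0 → x = 0) {d : M →ₗ[ℝ] M} {d' : N →ₗ[ℝ] N}
    (h : ∀ x, Φ (d x) = d' (Φ x)) (A : Submodule ℝ M) [FiniteDimensional ℝ A] :
    finrank ℝ ↥(A ⊓ LinearMap.ker d) = finrank ℝ ↥(A.map Φ ⊓ LinearMap.ker d') ∧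
      finrank ℝ (A.map d) = finrank ℝ ((A.map Φ).map d') := by
  have : FiniteDimensional ℝ ↥(A ⊓ LinearMap.ker d) :=
    Submodule.finiteDimensional_of_le inf_le_left
  have e1 : (A ⊓ LinearMap.ker d).map Φ = A.map Φ ⊓ LinearMap.ker d' := by
    apply le_antisymm
    · rintro _ ⟨a, ⟨ha, hk⟩, rfl⟩
      have hk' : d a = 0 := hk
      exact ⟨⟨a, ha, rfl⟩, by show d' (Φ a) = 0; rw [← h, hk', map_zero]⟩
    · rintro _ ⟨⟨a, ha, rfl⟩, hk⟩
      have hk' : d' (Φ a) = 0 := hk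
      exact ⟨a, ⟨ha, hΦ _ (by rw [h, hk'])⟩, rfl⟩
  have e2 : (A.map d).map Φ = (A.map Φ).map d' := by
    rw [← Submodule.map_comp, ← Submodule.map_comp, show Φ ∘ₗ d = d' ∘ₗ Φ from LinearMap.ext h]
  constructor
  · rw [← finrank_map_of_inf Φ _ (fun y _ => hΦ y), e1]
  · rw [← finrank_map_of_inf Φ _ (fun y _ => hΦ y), e2]

noncomputable def resc (η : Finset W → ℤˣ) : Ch W →ₗ[ℝ] Ch W :=
  LinearMap.pi fun θ => ((η θ : ℤ) : ℝ) • LinearMap.proj θ

theorem resc_apply (η : Finset W → ℤˣ) (c : Ch W) (θ : Finset W) :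
    resc η c θ = ((η θ : ℤ) : ℝ) • c θ := rfl

theorem resc_resc (η : Finset W → ℤˣ) (c : Ch W) : resc η (resc η c) = c := by
  funext θ
  rw [resc_apply, resc_apply, smul_smul, ← Int.cast_mul, ← Units.val_mul, Int.units_mul_self]
  simp

theorem resc_map (η : Finset W → ℤˣ) (K : Finset (Finset W)) (p : W → Fin 3 → ℝ) (s k : ℕ) :
    (chains K (cof p s) k).map (resc η) = chains K (cof p s) k := by
  have h : ∀ c ∈ chains K (cof p s) k, resc η c ∈ chains K (cof p s) k := by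
    intro c hc
    rw [mem_gch] at hc ⊢
    exact ⟨fun ψ h1 h2 => Submodule.smul_mem _ _ (hc.1 ψ h1 h2),
      fun ψ h1 => by rw [resc_apply, hc.2 ψ h1, smul_zero]⟩
  apply le_antisymm
  · rintro _ ⟨c, hc, rfl⟩
    exact h c hc
  · intro c hc
    exact ⟨resc η c, h c hc, resc_resc η c⟩

theorem resc_bd (ε ε' : Finset W → ℤˣ) (c : Ch W) :
    resc (ε * ε') (bd ε c) = bd ε' (resc (ε * ε') c) := by
  funext θ
  have h1 : ∀ u : ℤˣ, (u : ℤ) * u = 1 := fun u => by rw [← Units.val_mul, Int.units_mul_self]; rfl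
  simp only [resc_apply, bd_apply, Finset.smul_sum, smul_smul]
  refine Finset.sum_congr rfl (fun v _ => ?_)
  congr 1
  norm_cast
  simp only [inc, Pi.mul_apply, Units.val_mul]
  split_ifs
  · simp
  · linear_combination ((ε' θ : ℤ) * ε (insert v θ) * (-1 : ℤ) ^ (θ.filter (· < v)).card) *
      (h1 (ε θ) - h1 (ε' (insert v θ)))

theorem betti_indep (ε ε' : Finset W → ℤˣ) {K : Finset (Finset W)} (hK : Down K)
    (p : W → Fin 3 → ℝ) (s k : ℕ) : betti ε K (cof p s) k = betti ε' K (cof p s) k := by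
  have hinj : ∀ x : Ch W, resc (ε * ε') x = 0 → x = 0 := fun x hx => by
    rw [← resc_resc (ε * ε') x, hx, map_zero]
  have h1 := (transport hinj (resc_bd ε ε') (chains K (cof p s) k)).1
  have h2 := (transport hinj (resc_bd ε ε') (chains K (cof p s) (k + 1))).2
  rw [resc_map] at h1 h2
  have h3 := betti_add ε hK p s k
  have h4 := betti_add ε' hK p s k
  exact Nat.add_right_cancel ((h3.trans (h1.trans h4.symm)).trans (congrArg _ h2.symm))

end Pool.Agent.P.MP_9cf723_co
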