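import Mathlib

set_option autoImplicit false

namespace Pool.Agent.P.MP_9cf723_co

section polar

variable {A : Type*} [CommRing A] [Algebra ℝ A]

/-- span of n-th powers of elements of L -/
def powSpan (L : Submodule ℝ A) (n : ℕ) : Submodule ℝ A :=
  Submodule.span ℝ {f | ∃ l ∈ L, f = l ^ n}

theorem pow_mem_powSpan {L : Submodule ℝ A} {l : A} (h : l ∈ L) (n : ℕ) : l ^ n ∈ powSpan L n :=
  Submodule.subset_span ⟨l, h, rfl⟩

theorem powSpan_mono {L L' : Submodule ℝ A} (h : L ≤ L') (n : ℕ) : powSpan L n ≤ powSpan L' n :=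
  Submodule.span_mono (fun _ ⟨l, hl, e⟩ => ⟨l, h hl, e⟩)

theorem mul_pow_mem {L : Submodule ℝ A} {l m : A} (hl : l ∈ L) (hm : m ∈ L) (n : ℕ) :
    m * l ^ n ∈ powSpan L (n + 1) := by
  by_contra hcon
  obtain ⟨φ, hφ1, hφ2⟩ := Submodule.exists_dual_map_eq_bot_of_notMem hcon inferInstance
  have hz : ∀ f ∈ powSpan L (n + 1), φ f = 0 := by
    intro f hf
    have : φ f ∈ (powSpan L (n + 1)).map φ := Submodule.mem_map_of_mem hf
    rwa [hφ2, Submodule.mem_bot] at this
  set q : Polynomial ℝ := ∑ k ∈ Finset.range (n + 2),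
    Polynomial.monomial k (φ (m ^ k * l ^ (n + 1 - k)) * ((n + 1).choose k : ℝ)) with hq
  have hev : ∀ t : ℝ, q.eval t = 0 := by
    intro t
    have h1 := hz _ (pow_mem_powSpan (L.add_mem (L.smul_mem t hm) hl) (n + 1))
    rw [add_pow, map_sum] at h1
    rw [hq, Polynomial.eval_finsetSum, ← h1]
    refine Finset.sum_congr rfl (fun k _ => ?_)
    rw [Polynomial.eval_monomial, smul_pow, smul_mul_assoc, smul_mul_assoc, map_smul,
      mul_comm (m ^ k * l ^ (n + 1 - k)), ← nsmul_eq_mul, map_nsmul]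
    simp only [nsmul_eq_mul, smul_eq_mul]
    ring
  have hq0 : q = 0 := Polynomial.funext (by simpa using hev)
  have hc := congrArg (fun r => Polynomial.coeff r 1) hq0
  simp only [hq, Polynomial.finsetSum_coeff, Polynomial.coeff_monomial, Finset.sum_ite_eq',
    Finset.mem_range, Polynomial.coeff_zero] at hc
  rw [if_pos (by omega)] at hc
  simp only [pow_one, Nat.add_sub_cancel, Nat.choose_one_right, mul_eq_zero] at hc
  rcases hc with hc | hc
  · exact hφ1 hc
  · exact absurd hc (by positivity)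

theorem mul_mem_powSpan {L : Submodule ℝ A} {m f : A} (hm : m ∈ L) {n : ℕ}
    (hf : f ∈ powSpan L n) : m * f ∈ powSpan L (n + 1) := by
  induction hf using Submodule.span_induction with
  | mem f hf => obtain ⟨l, hl, rfl⟩ := hf; exact mul_pow_mem hl hm n
  | zero => simp
  | add f g _ _ h1 h2 => rw [mul_add]; exact Submodule.add_mem _ h1 h2
  | smul c f _ h => rw [mul_smul_comm]; exact Submodule.smul_mem _ c h

theorem pow_mul_pow_mem {L : Submodule ℝ A} {x y : A} (hx : x ∈ L) (hy : y ∈ L) (i j : ℕ) :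
    x ^ i * y ^ j ∈ powSpan L (i + j) := by
  induction i with
  | zero => simpa using pow_mem_powSpan hy j
  | succ i ih =>
    rw [pow_succ', mul_assoc, show i + 1 + j = i + j + 1 by ring]
    exact mul_mem_powSpan hx ih

/-- the polar operator -/
def pol (δ : Derivation ℝ A A) (n : ℕ) : A →ₗ[ℝ] A := (n : ℝ) • LinearMap.id + (δ : A →ₗ[ℝ] A)

theorem pol_apply (δ : Derivation ℝ A A) (n : ℕ) (f : A) : pol δ n f = (n : ℝ) • f + δ f := rfl

variable {δ : Derivation ℝ A A} {L : Submodule ℝ A} {ev : A →ₗ[ℝ] ℝ}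

theorem pol_pow {l : A} (h : δ l = algebraMap ℝ A (ev l) - l) (n : ℕ) :
    pol δ (n + 1) (l ^ (n + 1)) = (((n + 1 : ℕ) : ℝ) * ev l) • l ^ n := by
  rw [pol_apply, Derivation.leibniz_pow, h, nsmul_eq_mul]
  simp only [Nat.add_sub_cancel, smul_eq_mul, Algebra.smul_def, map_mul, map_natCast]
  ring

theorem pol_mul {l : A} (h : δ l = 1 - l) (n : ℕ) (f : A) :
    pol δ (n + 1) (l * f) = f + l * pol δ n f := by
  rw [pol_apply, pol_apply, Derivation.leibniz, h]
  simp only [smul_eq_mul, Algebra.smul_def, map_natCast]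
  push_cast
  ring

theorem pol_mem (hL : ∀ l ∈ L, δ l = algebraMap ℝ A (ev l) - l) {n : ℕ} {f : A}
    (hf : f ∈ powSpan L (n + 1)) : pol δ (n + 1) f ∈ powSpan L n := by
  induction hf using Submodule.span_induction with
  | mem f hf =>
    obtain ⟨l, hl, rfl⟩ := hf
    rw [pol_pow (hL l hl)]
    exact Submodule.smul_mem _ _ (pow_mem_powSpan hl n)
  | zero => simp
  | add f g _ _ h1 h2 => rw [map_add]; exact Submodule.add_mem _ h1 h2
  | smul c f _ h => rw [map_smul]; exact Submodule.smul_mem _ c h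

theorem pol_zero_of_ker (hL : ∀ l ∈ L, δ l = algebraMap ℝ A (ev l) - l) {n : ℕ} {f : A}
    (hf : f ∈ powSpan (L ⊓ LinearMap.ker ev) n) : pol δ n f = 0 := by
  induction hf using Submodule.span_induction with
  | mem f hf =>
    obtain ⟨l, hl, rfl⟩ := hf
    cases n with
    | zero => simp [pol_apply]
    | succ n =>
      have : ev l = 0 := hl.2
      rw [pol_pow (hL l hl.1), this]; simp
  | zero => simp
  | add f g _ _ h1 h2 => rw [map_add, h1, h2, add_zero]
  | smul c f _ h => rw [map_smul, h, smul_zero]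

theorem pol_inj (hL : ∀ l ∈ L, δ l = algebraMap ℝ A (ev l) - l) {l : A} (h1 : δ l = 1 - l)
    (n : ℕ) : ∀ (c : ℝ), 0 < c → ∀ f ∈ powSpan L n, c • f + l * pol δ n f = 0 → f = 0 := by
  have fin : ∀ (c : ℝ) (f : A) (n : ℕ), 0 < c → pol δ n f = 0 → c • f + l * pol δ n f = 0 →
      f = 0 := by
    intro c f n hc h0 h
    rw [h0, mul_zero, add_zero] at h
    exact (smul_eq_zero_iff_right hc.ne').1 h
  induction n with
  | zero =>
    intro c hc f hf h
    refine fin c f 0 hc (pol_zero_of_ker hL (n := 0) ?_) h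
    refine Submodule.span_mono ?_ hf
    rintro _ ⟨x, -, rfl⟩
    exact ⟨0, Submodule.zero_mem _, by simp⟩
  | succ n ih =>
    intro c hc f hf h
    refine fin c f _ hc (ih (c + 1) (by linarith) _ (pol_mem hL hf) ?_) h
    have h2 := congrArg (pol δ (n + 1)) h
    rw [map_add, map_smul, pol_mul h1, map_zero] at h2
    rw [← h2, add_smul, one_smul, add_assoc]

theorem powSpan_decomp {l₁ : A} (hl₁ : l₁ ∈ L) (h1 : ev l₁ = 1) {n : ℕ} {f : A}
    (hf : f ∈ powSpan L (n + 1)) :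
    ∃ g ∈ powSpan (L ⊓ LinearMap.ker ev) (n + 1), ∃ h ∈ powSpan L n, f = g + l₁ * h := by
  induction hf using Submodule.span_induction with
  | mem f hf =>
    obtain ⟨l, hl, rfl⟩ := hf
    have h0 : l - ev l • l₁ ∈ L := L.sub_mem hl (L.smul_mem _ hl₁)
    have h0' : l - ev l • l₁ ∈ L ⊓ LinearMap.ker ev := ⟨h0, by simp [h1]⟩
    refine ⟨_, pow_mem_powSpan h0' (n + 1),
      ev l • ∑ i ∈ Finset.range (n + 1), l ^ i * (l - ev l • l₁) ^ (n + 1 - 1 - i),
      Submodule.smul_mem _ _ (Submodule.sum_mem _ (fun i hi => ?_)), ?_⟩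
    · have := pow_mul_pow_mem hl h0 i (n + 1 - 1 - i)
      rwa [show i + (n + 1 - 1 - i) = n by have := Finset.mem_range.1 hi; omega] at this
    · have := (Commute.all l (l - ev l • l₁)).geom_sum₂_mul (n + 1)
      rw [mul_smul_comm, ← smul_mul_assoc]
      have e : ev l • l₁ = l - (l - ev l • l₁) := by ring
      rw [mul_comm]
      nth_rewrite 3 [e]
      rw [this]
      ring
  | zero => exact ⟨0, Submodule.zero_mem _, 0, Submodule.zero_mem _, by simp⟩
  | add f g _ _ h1 h2 =>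
    obtain ⟨a, ha, b, hb, rfl⟩ := h1
    obtain ⟨c, hc, d, hd, rfl⟩ := h2
    exact ⟨a + c, Submodule.add_mem _ ha hc, b + d, Submodule.add_mem _ hb hd, by ring⟩
  | smul c f _ h =>
    obtain ⟨a, ha, b, hb, rfl⟩ := h
    exact ⟨c • a, Submodule.smul_mem _ c ha, c • b, Submodule.smul_mem _ c hb, by
      rw [smul_add, mul_smul_comm]⟩

theorem powSpan_inf_ker (hL : ∀ l ∈ L, δ l = algebraMap ℝ A (ev l) - l) {l₁ : A} (hl₁ : l₁ ∈ L)
    (h1 : ev l₁ = 1) (n : ℕ) :
    powSpan L (n + 1) ⊓ LinearMap.ker (pol δ (n + 1)) = powSpan (L ⊓ LinearMap.ker ev) (n + 1) := by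
  have hδ : δ l₁ = 1 - l₁ := by rw [hL l₁ hl₁, h1, map_one]
  refine le_antisymm ?_ (le_inf (powSpan_mono inf_le_left _) (fun f hf => pol_zero_of_ker hL hf))
  rintro f ⟨hf1, hf2⟩
  obtain ⟨g, hg, h, hh, rfl⟩ := powSpan_decomp hl₁ h1 hf1
  have h2 : pol δ (n + 1) (g + l₁ * h) = 0 := hf2
  rw [map_add, pol_zero_of_ker hL hg, zero_add, pol_mul hδ] at h2
  have := pol_inj hL hδ n 1 one_pos h hh (by rwa [one_smul])
  rw [this, mul_zero, add_zero]
  exact hg

theorem powSpan_map (hL : ∀ l ∈ L, δ l = algebraMap ℝ A (ev l) - l) {l₁ : A} (hl₁ : l₁ ∈ L)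
    (h1 : ev l₁ = 1) (n : ℕ) : (powSpan L (n + 1)).map (pol δ (n + 1)) = powSpan L n := by
  have hδ : δ l₁ = 1 - l₁ := by rw [hL l₁ hl₁, h1, map_one]
  refine le_antisymm ?_ (Submodule.span_le.2 ?_)
  · rintro _ ⟨f, hf, rfl⟩
    exact pol_mem hL hf
  · rintro _ ⟨l, hl, rfl⟩
    by_cases h0 : ev l = 0
    · refine ⟨l₁ * l ^ n, mul_pow_mem hl hl₁ n, ?_⟩
      rw [pol_mul hδ, pol_zero_of_ker hL (pow_mem_powSpan (Submodule.mem_inf.2 ⟨hl, h0⟩) n), mul_zero, add_zero]
    · refine ⟨(((n + 1 : ℕ) : ℝ) * ev l)⁻¹ • l ^ (n + 1),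
        Submodule.smul_mem _ _ (pow_mem_powSpan hl _), ?_⟩
      rw [map_smul, pol_pow (hL l hl), smul_smul, inv_mul_cancel₀, one_smul]
      exact mul_ne_zero (by positivity) h0

end polar

end Pool.Agent.P.MP_9cf723_co
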