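import Pool.Agent.P.MP_9cf723_co.Defs
import Pool.Agent.P.MP_9cf723_co.Polar

set_option autoImplicit false
set_option linter.unusedSectionVars false

namespace Pool.Agent.P.MP_9cf723_co

open MvPolynomial

variable {W : Type} [Fintype W] [LinearOrder W]

noncomputable def aff (a : Fin 3 → ℝ) (d : ℝ) : MvPolynomial (Fin 3) ℝ :=
  ∑ i, C (a i) * X i + C d

theorem eval_aff (a : Fin 3 → ℝ) (d : ℝ) (x : Fin 3 → ℝ) :
    eval x (aff a d) = ∑ i, a i * x i + d := by
  simp [aff]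

def Lsub (p : W → Fin 3 → ℝ) (ψ : Finset W) : Submodule ℝ (MvPolynomial (Fin 3) ℝ) where
  carrier := affForms p ψ
  add_mem' := by
    rintro _ _ ⟨⟨a, d, rfl⟩, h1⟩ ⟨⟨a', d', rfl⟩, h2⟩
    refine ⟨⟨a + a', d + d', ?_⟩, fun v hv => by rw [map_add, h1 v hv, h2 v hv, add_zero]⟩
    simp only [Pi.add_apply, map_add, add_mul, Finset.sum_add_distrib]
    ring
  zero_mem' := ⟨⟨0, 0, by simp⟩, fun v _ => by simp⟩
  smul_mem' := by
    rintro c _ ⟨⟨a, d, rfl⟩, h1⟩
    refine ⟨⟨c • a, c * d, ?_⟩, fun v hv => by rw [smul_eval, h1 v hv, mul_zero]⟩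
    simp only [Pi.smul_apply, smul_eq_mul, map_mul, smul_eq_C_mul, mul_add, Finset.mul_sum,
      mul_assoc]

theorem mem_Lsub {p : W → Fin 3 → ℝ} {ψ : Finset W} {l : MvPolynomial (Fin 3) ℝ} :
    l ∈ Lsub p ψ ↔ (∃ a d, l = aff a d) ∧ ∀ v ∈ ψ, eval (p v) l = 0 := Iff.rfl

theorem totalDegree_aff (a : Fin 3 → ℝ) (d : ℝ) : (aff a d).totalDegree ≤ 1 := by
  unfold aff
  refine (totalDegree_add _ _).trans (max_le ?_ (by simp))
  refine totalDegree_finsetSum_le (fun i _ => ?_)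
  refine (totalDegree_mul _ _).trans ?_
  simp [totalDegree_X]

theorem powSpan_le (p : W → Fin 3 → ℝ) (ψ : Finset W) (s : ℕ) :
    powSpan (Lsub p ψ) s ≤ restrictTotalDegree (Fin 3) ℝ s := by
  refine Submodule.span_le.2 ?_
  rintro _ ⟨l, ⟨⟨a, d, rfl⟩, -⟩, rfl⟩
  refine (mem_restrictTotalDegree _ _ _).2 ((totalDegree_pow _ _).trans ?_)
  exact (Nat.mul_le_mul_left s (totalDegree_aff a d)).trans (by simp)

theorem monomial_mem (p : W → Fin 3 → ℝ) (s : ℕ) : ∀ m : Fin 3 →₀ ℕ, m.degree ≤ s →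
    monomial m (1 : ℝ) ∈ powSpan (Lsub p ∅) s := by
  have h1 : (1 : MvPolynomial (Fin 3) ℝ) ∈ Lsub p ∅ := ⟨⟨0, 1, by simp⟩, by simp⟩
  have hX : ∀ i, (X i : MvPolynomial (Fin 3) ℝ) ∈ Lsub p ∅ := fun i =>
    ⟨⟨Pi.single i 1, 0, by simp [Pi.single_apply, apply_ite, Finset.sum_ite_eq']⟩, by simp⟩
  induction s with
  | zero =>
    intro m hm
    have : m = 0 := (Finsupp.degree_eq_zero_iff m).1 (Nat.le_zero.1 hm)
    rw [this]
    simpa using pow_mem_powSpan h1 0
  | succ s ih =>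
    intro m hm
    by_cases h0 : m = 0
    · rw [h0]
      simpa using pow_mem_powSpan h1 (s + 1)
    · obtain ⟨i, hi⟩ := Finsupp.ne_iff.1 h0
      have hle : Finsupp.single i 1 ≤ m := by
        rw [Finsupp.single_le_iff]; exact Nat.one_le_iff_ne_zero.2 (by simpa using hi)
      obtain ⟨m', rfl⟩ := exists_add_of_le hle
      rw [monomial_single_add, pow_one]
      refine mul_mem_powSpan (hX i) (ih m' ?_)
      rw [map_add, Finsupp.degree_single] at hm
      omega

theorem cof_eq (p : W → Fin 3 → ℝ) (s : ℕ) (ψ : Finset W) : cof p s ψ = powSpan (Lsub p ψ) s := by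
  unfold cof
  split_ifs with h
  · subst h
    refine le_antisymm (fun f hf => ?_) (powSpan_le p ∅ s)
    rw [f.as_sum]
    refine Submodule.sum_mem _ (fun m hm => ?_)
    have e : monomial m (coeff m f) = coeff m f • monomial m (1 : ℝ) := by
      rw [smul_monomial, smul_eq_mul, mul_one]
    rw [e]
    refine Submodule.smul_mem _ _ (monomial_mem p s m ?_)
    exact (le_totalDegree hm).trans ((mem_restrictTotalDegree _ _ _).1 hf)
  · rfl

instance cof_fd (p : W → Fin 3 → ℝ) (s : ℕ) (ψ : Finset W) : FiniteDimensional ℝ (cof p s ψ) := by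
  rw [cof_eq]
  exact Submodule.finiteDimensional_of_le (powSpan_le p ψ s)

theorem cof_anti (p : W → Fin 3 → ℝ) (s : ℕ) {θ ψ : Finset W} (h : θ ⊆ ψ) :
    cof p s ψ ≤ cof p s θ := by
  rw [cof_eq, cof_eq]
  refine powSpan_mono (fun l hl => ?_) s
  exact mem_Lsub.2 ⟨(mem_Lsub.1 hl).1, fun v hv => (mem_Lsub.1 hl).2 v (h hv)⟩

noncomputable def der (q : Fin 3 → ℝ) :
    Derivation ℝ (MvPolynomial (Fin 3) ℝ) (MvPolynomial (Fin 3) ℝ) :=
  mkDerivation ℝ (fun i => C (q i) - X i)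

noncomputable def evl (q : Fin 3 → ℝ) : MvPolynomial (Fin 3) ℝ →ₗ[ℝ] ℝ :=
  (aeval q : MvPolynomial (Fin 3) ℝ →ₐ[ℝ] ℝ).toLinearMap

theorem evl_apply (q : Fin 3 → ℝ) (l : MvPolynomial (Fin 3) ℝ) : evl q l = eval q l := by
  simp [evl, aeval_eq_eval]

theorem der_aff (q : Fin 3 → ℝ) (p : W → Fin 3 → ℝ) (ψ : Finset W) :
    ∀ l ∈ Lsub p ψ, der q l = algebraMap ℝ _ (evl q l) - l := by
  rintro _ ⟨⟨a, d, rfl⟩, -⟩
  have e : (∑ i, C (a i) * X i + C d : MvPolynomial (Fin 3) ℝ) = aff a d := rfl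
  rw [evl_apply]
  nth_rewrite 2 [e]
  rw [eval_aff]
  simp only [der, map_add, map_sum, C_mul', Derivation.map_smul, mkDerivation_X, derivation_C,
    algebraMap_eq, map_mul, smul_sub, Finset.sum_sub_distrib]
  simp only [smul_eq_C_mul]
  ring

theorem Lsub_insert (p : W → Fin 3 → ℝ) (w : W) (θ : Finset W) :
    Lsub p (insert w θ) = Lsub p θ ⊓ LinearMap.ker (evl (p w)) := by
  ext l
  simp only [mem_Lsub, Finset.mem_insert, forall_eq_or_imp, Submodule.mem_inf, LinearMap.mem_ker,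
    evl_apply]
  tauto

theorem exists_sep (p : W → Fin 3 → ℝ) (θ : Finset W) (q : Fin 3 → ℝ)
    (hq : q ∉ affineSpan ℝ (p '' θ)) : ∃ l ∈ Lsub p θ, evl q l = 1 := by
  rcases θ.eq_empty_or_nonempty with rfl | ⟨v, hv⟩
  · exact ⟨1, ⟨⟨0, 1, by simp⟩, by simp⟩, by simp [evl_apply]⟩
  have hv' : p v ∈ affineSpan ℝ (p '' θ) := mem_affineSpan ℝ ⟨v, hv, rfl⟩
  have h1 : q - p v ∉ (affineSpan ℝ (p '' θ)).direction := by
    intro h
    apply hq
    have := AffineSubspace.vadd_mem_of_mem_direction h hv'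
    simpa using this
  obtain ⟨φ, hφ1, hφ2⟩ := Submodule.exists_dual_map_eq_bot_of_notMem h1 inferInstance
  have hφ : ∀ x : Fin 3 → ℝ, φ x = ∑ i, φ (Pi.single i 1) * x i := by
    intro x
    conv_lhs => rw [pi_eq_sum_univ' x]
    rw [map_sum]
    exact Finset.sum_congr rfl (fun i _ => by rw [map_smul, smul_eq_mul, mul_comm])
  have key : ∀ x, eval x (aff (fun i => φ (Pi.single i 1)) (-φ (p v))) = φ (x - p v) := by
    intro x
    rw [eval_aff, map_sub, hφ x]; ring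
  refine ⟨(φ (q - p v))⁻¹ • aff (fun i => φ (Pi.single i 1)) (-φ (p v)),
    Submodule.smul_mem _ _ ⟨⟨_, _, rfl⟩, fun u hu => ?_⟩, ?_⟩
  · rw [key]
    have : φ (p u - p v) ∈ (affineSpan ℝ (p '' θ)).direction.map φ :=
      Submodule.mem_map_of_mem
        (AffineSubspace.vsub_mem_direction (mem_affineSpan ℝ ⟨u, hu, rfl⟩) hv')
    rwa [hφ2, Submodule.mem_bot] at this
  · rw [map_smul, evl_apply, key, smul_eq_mul, inv_mul_cancel₀ hφ1]

theorem Lsub_eq_bot (p : W → Fin 3 → ℝ) (θ : Finset W) (h : affineSpan ℝ (p '' θ) = ⊤) :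
    Lsub p θ = ⊥ := by
  rw [eq_bot_iff]
  rintro _ ⟨⟨a, d, rfl⟩, hl⟩
  apply MvPolynomial.funext
  intro x
  have hx : x ∈ affineSpan ℝ (p '' θ) := h ▸ AffineSubspace.mem_top ℝ _ x
  have e : (∑ i, C (a i) * X i + C d : MvPolynomial (Fin 3) ℝ) = aff a d := rfl
  rw [e] at hl ⊢
  rw [map_zero]
  refine affineSpan_induction hx ?_ ?_
  · rintro _ ⟨v, hv, rfl⟩
    exact hl v hv
  · intro c u v w hu hv hw
    simp only [eval_aff, Fin.sum_univ_three, vsub_eq_sub, vadd_eq_add, Pi.add_apply,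
      Pi.smul_apply, Pi.sub_apply, smul_eq_mul] at hu hv hw ⊢
    linear_combination c * hu - c * hv + hw

theorem cof_eq_bot_iff (p : W → Fin 3 → ℝ) (s : ℕ) (θ : Finset W) :
    cof p (s + 1) θ = ⊥ ↔ affineSpan ℝ (p '' θ) = ⊤ := by
  rw [cof_eq]
  constructor
  · intro h
    by_contra hne
    obtain ⟨q, hq⟩ : ∃ q, q ∉ affineSpan ℝ (p '' θ) := by
      by_contra hall
      push Not at hall
      exact hne (eq_top_iff.2 (fun q _ => hall q))
    obtain ⟨l, hl, h1⟩ := exists_sep p θ q hq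
    have := pow_mem_powSpan hl (s + 1)
    rw [h, Submodule.mem_bot] at this
    rw [pow_eq_zero_iff (by omega)] at this
    simp [this] at h1
  · intro h
    rw [Lsub_eq_bot p θ h, eq_bot_iff]
    refine Submodule.span_le.2 ?_
    rintro _ ⟨l, hl, rfl⟩
    rw [Submodule.mem_bot] at hl
    simp [hl]

theorem span_ne_top (p : W → Fin 3 → ℝ) {θ : Finset W} (h : θ.card ≤ 3) :
    affineSpan ℝ (p '' θ) ≠ ⊤ := by
  classical
  intro ht
  rcases θ.eq_empty_or_nonempty with rfl | hne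
  · simp at ht
  have h1 := AffineSubspace.vectorSpan_eq_top_of_affineSpan_eq_top ℝ _ _ ht
  have h2 := finrank_vectorSpan_image_finset_le ℝ p θ (n := θ.card - 1)
    (by have := hne.card_pos; omega)
  rw [Finset.coe_image, h1, finrank_top] at h2
  simp at h2
  omega

theorem span_insert_top_iff (p : W → Fin 3 → ℝ) {σ : Finset W} (h : σ.card = 3) {w : W}
    (hw : w ∉ σ) (hq : p w ∉ affineSpan ℝ (p '' σ)) :
    affineSpan ℝ (p '' (insert w σ : Finset W)) = ⊤ ↔
      AffineIndependent ℝ (fun v : σ => p v) := by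
  have hc : Fintype.card (insert w σ : Finset W) = 3 + 1 := by
    rw [Fintype.card_coe, Finset.card_insert_of_notMem hw, h]
  have hr : Set.range (fun v : (insert w σ : Finset W) => p v) = p '' (insert w σ : Finset W) := by
    ext x; simp
  constructor
  · intro ht
    have h1 : AffineIndependent ℝ (fun v : (insert w σ : Finset W) => p v) := by
      rw [affineIndependent_iff_le_finrank_vectorSpan ℝ _ hc, hr,
        AffineSubspace.vectorSpan_eq_top_of_affineSpan_eq_top ℝ _ _ ht, finrank_top]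
      simp
    exact h1.comp_embedding ⟨fun v : σ => ⟨v, Finset.mem_insert_of_mem v.2⟩,
      fun a b hab => Subtype.ext (by simpa using hab)⟩
  · intro hi
    have h1 : AffineIndependent ℝ (fun v : (insert w σ : Finset W) => p v) := by
      refine AffineIndependent.affineIndependent_of_notMem_span
        (i := ⟨w, Finset.mem_insert_self w σ⟩) ?_ ?_
      · exact hi.comp_embedding (ι2 := {y : (insert w σ : Finset W) //
            y ≠ ⟨w, Finset.mem_insert_self w σ⟩})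
          ⟨fun v => ⟨v.1.1, (Finset.mem_insert.1 v.1.2).resolve_left
            (fun e => v.2 (Subtype.ext e))⟩,
          fun a b hab => Subtype.ext (Subtype.ext (by simpa using hab))⟩
      · intro hm
        refine hq (affineSpan_mono ℝ ?_ hm)
        rintro _ ⟨v, hv, rfl⟩
        exact ⟨v.1, (Finset.mem_insert.1 v.2).resolve_left (fun e => hv (Subtype.ext e)), rfl⟩
    rw [← hr, h1.affineSpan_eq_top_iff_card_eq_finrank_add_one, hc]
    simp

theorem cof_inf_ker (p : W → Fin 3 → ℝ) (s : ℕ) {θ : Finset W} {w : W}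
    (hq : p w ∉ affineSpan ℝ (p '' θ)) :
    cof p (s + 1) θ ⊓ LinearMap.ker (pol (der (p w)) (s + 1)) = cof p (s + 1) (insert w θ) := by
  obtain ⟨l, hl, h1⟩ := exists_sep p θ _ hq
  rw [cof_eq, cof_eq, Lsub_insert]
  exact powSpan_inf_ker (der_aff _ p θ) hl h1 s

theorem cof_map (p : W → Fin 3 → ℝ) (s : ℕ) {θ : Finset W} {w : W}
    (hq : p w ∉ affineSpan ℝ (p '' θ)) :
    (cof p (s + 1) θ).map (pol (der (p w)) (s + 1)) = cof p s θ := by
  obtain ⟨l, hl, h1⟩ := exists_sep p θ _ hq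
  rw [cof_eq, cof_eq]
  exact powSpan_map (der_aff _ p θ) hl h1 s

end Pool.Agent.P.MP_9cf723_co
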