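import Mathlib

set_option autoImplicit false

namespace Pool.Agent.P.MP_9cf723_co

open MvPolynomial

variable {W : Type} [Fintype W] [LinearOrder W]

/-- affine forms vanishing at the points of a simplex -/
def affForms (p : W → Fin 3 → ℝ) (ψ : Finset W) : Set (MvPolynomial (Fin 3) ℝ) :=
  {l | (∃ (a : Fin 3 → ℝ) (d : ℝ), l = ∑ i, C (a i) * X i + C d) ∧ ∀ v ∈ ψ, eval (p v) l = 0}

/-- the coefficient space of a simplex -/
noncomputable def cof (p : W → Fin 3 → ℝ) (s : ℕ) (ψ : Finset W) :
    Submodule ℝ (MvPolynomial (Fin 3) ℝ) :=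
  if ψ = ∅ then restrictTotalDegree (Fin 3) ℝ s
  else Submodule.span ℝ {f | ∃ l ∈ affForms p ψ, f = l ^ s}

/-- incidence number of the simplex θ in the simplex θ plus v -/
def inc (ε : Finset W → ℤˣ) (θ : Finset W) (v : W) : ℤ :=
  if v ∈ θ then 0 else ε θ * ε (insert v θ) * (-1) ^ (θ.filter (· < v)).card

variable {P : Type} [AddCommGroup P] [Module ℝ P]

/-- boundary map -/
noncomputable def bd (ε : Finset W → ℤˣ) : (Finset W → P) →ₗ[ℝ] (Finset W → P) :=
  LinearMap.pi fun θ => ∑ v : W, (inc ε θ v : ℝ) • LinearMap.proj (insert v θ)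

/-- chains supported on the simplices of K with k vertices, with coefficient spaces I -/
noncomputable def chains (K : Finset (Finset W)) (I : Finset W → Submodule ℝ P) (k : ℕ) :
    Submodule ℝ (Finset W → P) :=
  Submodule.pi Set.univ fun ψ => if ψ ∈ K ∧ ψ.card = k then I ψ else ⊥

/-- dimension of the quotient Z / B -/
noncomputable def quotDim (Z B : Submodule ℝ P) : ℕ :=
  Module.finrank ℝ (Z ⧸ B.comap Z.subtype)

/-- Betti number in degree k - 1 -/
noncomputable def betti (ε : Finset W → ℤˣ) (K : Finset (Finset W))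
    (I : Finset W → Submodule ℝ P) (k : ℕ) : ℕ :=
  quotDim (chains K I k ⊓ LinearMap.ker (bd ε)) ((chains K I (k + 1)).map (bd ε))

/-- truncated cone with apex w -/
def cone (w : W) (K : Finset (Finset W)) : Finset (Finset W) :=
  K ∪ (K.filter fun θ => θ.card ≤ 2).image (insert w)

end Pool.Agent.P.MP_9cf723_co
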