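import Pool.Agent.P.MP_9cf723_co.Chains

set_option autoImplicit false
set_option linter.unusedSectionVars false

namespace Pool.Agent.P.MP_9cf723_co

open MvPolynomial Module

variable {W : Type} [Fintype W] [LinearOrder W]

noncomputable def Phi (ε : Finset W → ℤˣ) (w : W) : Ch W →ₗ[ℝ] Ch W × Ch W :=
  LinearMap.prod (LinearMap.pi fun θ => if w ∈ θ then 0 else LinearMap.proj θ)
    (LinearMap.pi fun θ => (inc ε θ w : ℝ) • LinearMap.proj (insert w θ))

theorem Phi_fst (ε : Finset W → ℤˣ) (w : W) (c : Ch W) (θ : Finset W) :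
    (Phi ε w c).1 θ = if w ∈ θ then 0 else c θ := by
  show (if w ∈ θ then 0 else LinearMap.proj θ : Ch W →ₗ[ℝ] MvPolynomial (Fin 3) ℝ) c = _
  split_ifs <;> rfl

theorem Phi_snd (ε : Finset W → ℤˣ) (w : W) (c : Ch W) (θ : Finset W) :
    (Phi ε w c).2 θ = (inc ε θ w : ℝ) • c (insert w θ) := rfl

theorem inc_sq' (ε : Finset W → ℤˣ) {θ : Finset W} {v : W} (h : v ∉ θ) :
    (inc ε θ v : ℝ) * inc ε θ v = 1 := by exact_mod_cast inc_sq ε h

theorem Phi_inj (ε : Finset W → ℤˣ) (w : W) (c : Ch W) (h : Phi ε w c = 0) : c = 0 := by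
  funext τ
  by_cases hτ : w ∈ τ
  · have h1 := Phi_snd ε w c (τ.erase w)
    rw [h, Finset.insert_erase hτ] at h1
    have h2 := congrArg (fun x => (inc ε (τ.erase w) w : ℝ) • x) h1
    simp only [smul_smul, inc_sq' ε (Finset.notMem_erase w τ), one_smul] at h2
    rw [← h2]; simp
  · have h1 := Phi_fst ε w c τ
    rw [h, if_neg hτ] at h1
    exact h1.symm

theorem Phi_bd (ε : Finset W → ℤˣ) (w : W) (c : Ch W) :
    Phi ε w (bd ε c) = coneD (bd ε) (Phi ε w c) := by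
  rw [coneD_apply]
  refine Prod.ext (funext fun θ => ?_) (funext fun θ => ?_)
  · simp only [Pi.add_apply, Phi_fst, Phi_snd, bd_apply]
    split_ifs with h
    · simp [h, inc_of_mem ε h]
    · rw [← Finset.add_sum_erase _ _ (Finset.mem_univ w),
        ← Finset.add_sum_erase _ _ (Finset.mem_univ w), if_pos (Finset.mem_insert_self w θ),
        smul_zero, zero_add, add_comm]
      congr 1
      refine Finset.sum_congr rfl (fun v hv => ?_)
      rw [if_neg]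
      simp only [Finset.mem_insert, h, or_false]
      exact fun e => (Finset.mem_erase.1 hv).1 e.symm
  · simp only [Pi.neg_apply, Phi_snd, bd_apply, Finset.smul_sum, smul_smul,
      ← Finset.sum_neg_distrib]
    refine Finset.sum_congr rfl (fun v _ => ?_)
    rw [inc_anti' ε θ v w, Finset.insert_comm, neg_smul]

theorem mem_cone {K : Finset (Finset W)} {w : W} (hw : ∀ σ ∈ K, w ∉ σ) (τ : Finset W) :
    τ ∈ cone w K ↔ (w ∉ τ ∧ τ ∈ K) ∨ (w ∈ τ ∧ τ.erase w ∈ K ∧ τ.card ≤ 3) := by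
  simp only [cone, Finset.mem_union, Finset.mem_image, Finset.mem_filter]
  constructor
  · rintro (h | ⟨θ, ⟨h1, h2⟩, rfl⟩)
    · exact Or.inl ⟨hw τ h, h⟩
    · refine Or.inr ⟨Finset.mem_insert_self _ _, by rwa [Finset.erase_insert (hw θ h1)], ?_⟩
      rw [Finset.card_insert_of_notMem (hw θ h1)]; omega
  · rintro (h | ⟨h1, h2, h3⟩)
    · exact Or.inl h.2
    · refine Or.inr ⟨τ.erase w, ⟨h2, ?_⟩, Finset.insert_erase h1⟩
      rw [Finset.card_erase_of_mem h1]; omega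

theorem down_cone {K : Finset (Finset W)} {w : W} (hw : ∀ σ ∈ K, w ∉ σ) (hK : Down K) :
    Down (cone w K) := by
  intro σ hσ θ hθ
  rw [mem_cone hw] at hσ ⊢
  rcases hσ with ⟨h1, h2⟩ | ⟨h1, h2, h3⟩
  · exact Or.inl ⟨fun h => h1 (hθ h), hK σ h2 θ hθ⟩
  · by_cases h : w ∈ θ
    · exact Or.inr ⟨h, hK _ h2 _ (Finset.erase_subset_erase w hθ),
        (Finset.card_le_card hθ).trans h3⟩
    · exact Or.inl ⟨h, hK _ h2 _ (Finset.subset_erase.2 ⟨hθ, h⟩)⟩

noncomputable def Bch (K : Finset (Finset W)) (p : W → Fin 3 → ℝ) (w : W) (s k : ℕ) :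
    Submodule ℝ (Ch W) := chains K (fun θ => cof p s (insert w θ)) k

instance Bch_fd (K : Finset (Finset W)) (p : W → Fin 3 → ℝ) (w : W) (s k : ℕ) :
    FiniteDimensional ℝ (Bch K p w s k) := gch_fd K _ k

theorem Phi_fst_mem (ε : Finset W → ℤˣ) {K : Finset (Finset W)} {w : W} (hw : ∀ σ ∈ K, w ∉ σ)
    {p : W → Fin 3 → ℝ} {s k : ℕ} {c : Ch W} (hc : c ∈ chains (cone w K) (cof p s) k) :
    (Phi ε w c).1 ∈ chains K (cof p s) k := by
  rw [mem_gch] at hc ⊢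
  refine ⟨fun θ h1 h2 => ?_, fun θ h => ?_⟩
  · rw [Phi_fst, if_neg (hw θ h1)]
    exact hc.1 θ ((mem_cone hw θ).2 (Or.inl ⟨hw θ h1, h1⟩)) h2
  · rw [Phi_fst]
    split_ifs with h0
    · rfl
    · refine hc.2 θ (fun h' => h ⟨?_, h'.2⟩)
      rcases (mem_cone hw θ).1 h'.1 with h3 | h3
      · exact h3.2
      · exact absurd h3.1 h0

theorem Phi_map_succ (ε : Finset W → ℤˣ) {K : Finset (Finset W)} {w : W} (hw : ∀ σ ∈ K, w ∉ σ)
    (p : W → Fin 3 → ℝ) (s : ℕ) {k : ℕ} (hk : k ≤ 2) :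
    (chains (cone w K) (cof p s) (k + 1)).map (Phi ε w) = (chains K (cof p s) (k + 1)).prod (Bch K p w s k) := by
  apply le_antisymm
  · rintro _ ⟨c, hc, rfl⟩
    refine ⟨Phi_fst_mem ε hw hc, ?_⟩
    have hc' := mem_gch.1 hc
    refine mem_gch.2 ⟨fun θ h1 h2 => ?_, fun θ h => ?_⟩
    · rw [Phi_snd]
      have h3 : (insert w θ).card = k + 1 := by rw [Finset.card_insert_of_notMem (hw θ h1), h2]
      refine Submodule.smul_mem _ _ (hc'.1 _ ((mem_cone hw _).2 (Or.inr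
        ⟨Finset.mem_insert_self _ _, by rwa [Finset.erase_insert (hw θ h1)], by omega⟩)) h3)
    · rw [Phi_snd]
      by_cases h0 : w ∈ θ
      · simp [inc_of_mem ε h0]
      · rw [hc'.2, smul_zero]
        rintro ⟨h1, h2⟩
        rw [Finset.card_insert_of_notMem h0] at h2
        rcases (mem_cone hw _).1 h1 with h3 | h3
        · exact h3.1 (Finset.mem_insert_self _ _)
        · rw [Finset.erase_insert h0] at h3
          exact h ⟨h3.2.1, by omega⟩
  · rintro ⟨a, b⟩ ⟨ha, hb⟩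
    have ha' := mem_gch.1 ha
    have hb' := mem_gch.1 hb
    dsimp only at ha' hb'
    refine ⟨fun τ => if w ∈ τ then (inc ε (τ.erase w) w : ℝ) • b (τ.erase w) else a τ,
      mem_gch.2 ⟨fun τ h1 h2 => ?_, fun τ h => ?_⟩, Prod.ext (funext fun θ => ?_) (funext fun θ => ?_)⟩
    · rcases (mem_cone hw _).1 h1 with h3 | h3
      · rw [if_neg h3.1]; exact ha'.1 τ h3.2 h2
      · rw [if_pos h3.1]
        have := hb'.1 _ h3.2.1 (by rw [Finset.card_erase_of_mem h3.1]; omega)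
        rw [Finset.insert_erase h3.1] at this
        exact Submodule.smul_mem _ _ this
    · split_ifs with h0
      · rw [hb'.2, smul_zero]
        rintro ⟨h1, h2⟩
        rw [Finset.card_erase_of_mem h0] at h2
        have := Finset.card_pos.2 ⟨w, h0⟩
        exact h ⟨(mem_cone hw _).2 (Or.inr ⟨h0, h1, by omega⟩), by omega⟩
      · exact ha'.2 τ (fun h' => h ⟨(mem_cone hw _).2 (Or.inl ⟨h0, h'.1⟩), h'.2⟩)
    · rw [Phi_fst]
      split_ifs with h0
      · exact (ha'.2 θ (fun h' => hw θ h'.1 h0)).symm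
      · rfl
    · rw [Phi_snd, if_pos (Finset.mem_insert_self _ _)]
      by_cases h0 : w ∈ θ
      · rw [inc_of_mem ε h0]
        simpa using (hb'.2 θ (fun h' => hw θ h'.1 h0)).symm
      · rw [Finset.erase_insert h0, smul_smul, inc_sq' ε h0, one_smul]

theorem Phi_map_zero (ε : Finset W → ℤˣ) {K : Finset (Finset W)} {w : W} (hw : ∀ σ ∈ K, w ∉ σ)
    (p : W → Fin 3 → ℝ) (s : ℕ) :
    (chains (cone w K) (cof p s) 0).map (Phi ε w) = (chains K (cof p s) 0).prod ⊥ := by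
  apply le_antisymm
  · rintro _ ⟨c, hc, rfl⟩
    refine ⟨Phi_fst_mem ε hw hc, (Submodule.mem_bot ℝ).2 (funext fun θ => ?_)⟩
    rw [Phi_snd, (mem_gch.1 hc).2, smul_zero]
    · rfl
    · rintro ⟨-, h2⟩
      exact absurd h2 (Finset.insert_nonempty w θ).card_pos.ne'
  · rintro ⟨a, b⟩ ⟨ha, hb⟩
    have ha' := mem_gch.1 ha
    have hb' : b = 0 := (Submodule.mem_bot ℝ).1 hb
    dsimp only at ha'
    refine ⟨a, mem_gch.2 ⟨fun τ h1 h2 => ?_, fun τ h => ?_⟩,
      Prod.ext (funext fun θ => ?_) (funext fun θ => ?_)⟩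
    · rcases (mem_cone hw _).1 h1 with h3 | h3
      · exact ha'.1 τ h3.2 h2
      · exact absurd h2 (Finset.card_pos.2 ⟨w, h3.1⟩).ne'
    · exact ha'.2 τ (fun h' => h ⟨(mem_cone hw _).2 (Or.inl ⟨hw τ h'.1, h'.1⟩), h'.2⟩)
    · rw [Phi_fst]
      split_ifs with h0
      · exact (ha'.2 θ (fun h' => hw θ h'.1 h0)).symm
      · rfl
    · rw [Phi_snd, ha'.2, smul_zero, hb']
      · rfl
      · rintro ⟨-, h2⟩
        exact absurd h2 (Finset.insert_nonempty w θ).card_pos.ne'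

noncomputable def DD (q : Fin 3 → ℝ) (n : ℕ) : Ch W →ₗ[ℝ] Ch W :=
  LinearMap.pi fun θ => pol (der q) n ∘ₗ LinearMap.proj θ

theorem DD_apply (q : Fin 3 → ℝ) (n : ℕ) (c : Ch W) (θ : Finset W) :
    DD q n c θ = pol (der q) n (c θ) := rfl

theorem DD_bd (ε : Finset W → ℤˣ) (q : Fin 3 → ℝ) (n : ℕ) (c : Ch W) :
    DD q n (bd ε c) = bd ε (DD q n c) := by
  funext θ
  simp only [DD_apply, bd_apply, map_sum, map_smul]

variable {K : Finset (Finset W)} {w : W} {p : W → Fin 3 → ℝ}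

theorem DD_map (hg : ∀ θ ∈ K, p w ∉ affineSpan ℝ (p '' θ)) (s k : ℕ) :
    (chains K (cof p (s + 1)) k).map (DD (p w) (s + 1)) = chains K (cof p s) k := by
  apply le_antisymm
  · rintro _ ⟨c, hc, rfl⟩
    have hc' := mem_gch.1 hc
    refine mem_gch.2 ⟨fun θ h1 h2 => ?_, fun θ h => ?_⟩
    · rw [DD_apply, ← cof_map p s (hg θ h1)]
      exact Submodule.mem_map_of_mem (hc'.1 θ h1 h2)
    · rw [DD_apply, hc'.2 θ h, map_zero]
  · intro c hc
    have hc' := mem_gch.1 hc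
    have h : ∀ θ, ∃ f, pol (der (p w)) (s + 1) f = c θ ∧
        (θ ∈ K → θ.card = k → f ∈ cof p (s + 1) θ) ∧ (¬ (θ ∈ K ∧ θ.card = k) → f = 0) := by
      intro θ
      by_cases h0 : θ ∈ K ∧ θ.card = k
      · have := hc'.1 θ h0.1 h0.2
        rw [← cof_map p s (hg θ h0.1)] at this
        obtain ⟨f, hf, e⟩ := this
        exact ⟨f, e, fun _ _ => hf, fun h' => absurd h0 h'⟩
      · exact ⟨0, by rw [map_zero, hc'.2 θ h0], fun _ _ => Submodule.zero_mem _, fun _ => rfl⟩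
    choose f hf using h
    exact ⟨f, mem_gch.2 ⟨fun θ => (hf θ).2.1, fun θ => (hf θ).2.2⟩, funext fun θ => (hf θ).1⟩

theorem Bch_eq (hg : ∀ θ ∈ K, p w ∉ affineSpan ℝ (p '' θ)) (s k : ℕ) :
    Bch K p w (s + 1) k = chains K (cof p (s + 1)) k ⊓ LinearMap.ker (DD (p w) (s + 1)) := by
  apply le_antisymm
  · intro c hc
    have hc' := mem_gch.1 hc
    refine ⟨mem_gch.2 ⟨fun θ h1 h2 => cof_anti p _ (Finset.subset_insert w θ) (hc'.1 θ h1 h2),
      hc'.2⟩, funext fun θ => ?_⟩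
    by_cases h0 : θ ∈ K ∧ θ.card = k
    · have := hc'.1 θ h0.1 h0.2
      rw [← cof_inf_ker p s (hg θ h0.1)] at this
      exact this.2
    · rw [DD_apply, hc'.2 θ h0, map_zero]; rfl
  · rintro c ⟨hc, hk⟩
    have hc' := mem_gch.1 hc
    refine mem_gch.2 ⟨fun θ h1 h2 => ?_, hc'.2⟩
    rw [← cof_inf_ker p s (hg θ h1)]
    exact ⟨hc'.1 θ h1 h2, congrFun (LinearMap.mem_ker.1 hk) θ⟩

theorem cone_cycles (ε : Finset W → ℤˣ) (hw : ∀ σ ∈ K, w ∉ σ) (hK : Down K)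
    (hg : ∀ θ ∈ K, p w ∉ affineSpan ℝ (p '' θ)) (s : ℕ) {k : ℕ} (hk : k ≤ 3) :
    finrank ℝ ↥(chains (cone w K) (cof p (s + 1)) k ⊓ LinearMap.ker (bd ε)) =
      finrank ℝ ↥(chains K (cof p s) k ⊓ LinearMap.ker (bd ε)) + finrank ℝ (Bch K p w (s + 1) k) := by
  refine (transport (Phi_inj ε w) (Phi_bd ε w) (chains (cone w K) (cof p (s + 1)) k)).1.trans ?_
  rw [Bch_eq hg, ← DD_map hg s k]
  cases k with
  | zero =>
    rw [Phi_map_zero ε hw]
    exact cycles_dim (bd_bd ε) (DD_bd ε _ _) (bd_zero ε K p _) (by simp)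
  | succ k =>
    rw [Phi_map_succ ε hw p _ (by omega)]
    exact cycles_dim (bd_bd ε) (DD_bd ε _ _) (bd_mem ε hK p _ k) (Bch_eq hg s k)

theorem cone_bounds (ε : Finset W → ℤˣ) (hw : ∀ σ ∈ K, w ∉ σ) (hK : Down K)
    (hg : ∀ θ ∈ K, p w ∉ affineSpan ℝ (p '' θ)) (s : ℕ) {k : ℕ} (hk : k ≤ 2) :
    finrank ℝ ((chains (cone w K) (cof p (s + 1)) (k + 1)).map (bd ε)) =
      finrank ℝ ((chains K (cof p s) (k + 1)).map (bd ε)) + finrank ℝ (Bch K p w (s + 1) k) := by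
  refine (transport (Phi_inj ε w) (Phi_bd ε w) (chains (cone w K) (cof p (s + 1)) (k + 1))).2.trans ?_
  rw [← DD_map hg s (k + 1), Phi_map_succ ε hw p _ hk]
  exact bounds_dim (bd_bd ε) (DD_bd ε _ _) (bd_mem ε hK p _ k) (Bch_eq hg s k)

theorem chains_four (hc : ∀ σ ∈ K, σ.card ≤ 3) (s : ℕ) : chains K (cof p s) (3 + 1) = ⊥ := by
  rw [eq_bot_iff]
  intro c h
  exact (Submodule.mem_bot ℝ).2 (funext fun θ => (mem_gch.1 h).2 θ
    (fun h' => by have := hc θ h'.1; omega))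

theorem betti_low (ε : Finset W → ℤˣ) (hw : ∀ σ ∈ K, w ∉ σ) (hK : Down K)
    (hg : ∀ θ ∈ K, p w ∉ affineSpan ℝ (p '' θ)) (s : ℕ) {k : ℕ} (hk : k ≤ 2) :
    betti ε K (cof p s) k = betti ε (cone w K) (cof p (s + 1)) k := by
  have h1 := betti_add ε hK p s k
  have h2 := betti_add ε (down_cone hw hK) p (s + 1) k
  have h3 := cone_cycles ε hw hK hg s (k := k) (by omega)
  have h4 := cone_bounds ε hw hK hg s hk
  omega

theorem betti_top (ε : Finset W → ℤˣ) (hw : ∀ σ ∈ K, w ∉ σ) (hK : Down K)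
    (hc : ∀ σ ∈ K, σ.card ≤ 3) (hg : ∀ θ ∈ K, p w ∉ affineSpan ℝ (p '' θ)) (s : ℕ) :
    betti ε (cone w K) (cof p (s + 1)) 3 = betti ε K (cof p s) 3 + finrank ℝ (Bch K p w (s + 1) 3) := by
  have h1 := betti_add ε hK p s 3
  have h2 := betti_add ε (down_cone hw hK) p (s + 1) 3
  have h3 := cone_cycles ε hw hK hg s (k := 3) le_rfl
  have hc' : ∀ σ ∈ cone w K, σ.card ≤ 3 := by
    intro σ hσ
    rcases (mem_cone hw σ).1 hσ with h | h
    · exact hc σ h.2
    · exact h.2.2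
  rw [chains_four hc, Submodule.map_bot, finrank_bot] at h1
  rw [chains_four hc', Submodule.map_bot, finrank_bot] at h2
  omega

theorem Bch_top_iff (hw : ∀ σ ∈ K, w ∉ σ) (hg : ∀ θ ∈ K, p w ∉ affineSpan ℝ (p '' θ)) (s : ℕ) :
    finrank ℝ (Bch K p w (s + 1) 3) = 0 ↔
      ∀ σ ∈ K, σ.card = 3 → AffineIndependent ℝ (fun v : σ => p v) := by
  rw [Submodule.finrank_eq_zero]
  constructor
  · intro h σ h1 h2
    rw [← span_insert_top_iff p h2 (hw σ h1) (hg σ h1), ← cof_eq_bot_iff p s, eq_bot_iff]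
    intro f hf
    have : (Pi.single σ f : Ch W) ∈ Bch K p w (s + 1) 3 := by
      refine mem_gch.2 ⟨fun θ _ _ => ?_, fun θ hθ => ?_⟩
      · by_cases e : θ = σ
        · subst e; simpa using hf
        · simp [Pi.single_eq_of_ne e]
      · have e : θ ≠ σ := by rintro rfl; exact hθ ⟨h1, h2⟩
        exact Pi.single_eq_of_ne e _
    rw [h, Submodule.mem_bot] at this
    simpa using congrFun this σ
  · intro h
    rw [eq_bot_iff]
    intro c hc
    have hc' := mem_gch.1 hc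
    refine (Submodule.mem_bot ℝ).2 (funext fun θ => ?_)
    by_cases h0 : θ ∈ K ∧ θ.card = 3
    · have := hc'.1 θ h0.1 h0.2
      rwa [(cof_eq_bot_iff p s _).2
        ((span_insert_top_iff p h0.2 (hw θ h0.1) (hg θ h0.1)).2 (h θ h0.1 h0.2))] at this
    · exact hc'.2 θ h0

end Pool.Agent.P.MP_9cf723_co
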